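import Pool.Agent.Lib.OnePass.Referee

namespace Pool.Agent.Results.MP_919415_lc.QuietVertex

open Pool.Agent.OnePass

/-- A referee of unbounded memory and power talks with the vertices of a directed graph, each of
which knows its own row of the adjacency matrix. If the vertex asked first is asked at most `v`
times and `2 |A| ^ v |Q| ^ (v - 1) ≤ n`, where `A` is the set of answers and `Q` the set of
questions, then the set of accepted graphs is a graph property if and only if the answer depends
only on the loops and the out-degrees. -/
theorem result {n v : ℕ} {H Q A : Type} [Fintype Q] [Fintype A] (M : Referee n H Q A)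
    (hv : M.FirstAsked v) (hn : 2 * (Fintype.card A ^ v * Fintype.card Q ^ (v - 1)) ≤ n) :
    Invariant M.Accepts ↔ ∀ G G' : Fin n → Fin n → Bool, loopDegrees G = loopDegrees G' →
      (M.Accepts G ↔ M.Accepts G') :=
  M.main hv hn

end Pool.Agent.Results.MP_919415_lc.QuietVertex
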