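import Pool.Agent.Lib.OnePass.Final

namespace Pool.Agent.Results.MP_919415_lc.RowAutomata

open Pool.Agent.OnePass

/-- Among the algorithms that read the adjacency matrix of a directed graph row by row, every row
entry by entry with a working memory of at most `s` states and a transition rule that does not
depend on the position, and every row at most `p` times, those deciding a graph property are
exactly the ones whose answer is unchanged when the input is replaced by the sorted matrix of its
out-degrees, as soon as `48 s ^ (12 p) (log₂ n + 1) ≤ n`. -/
theorem result {n p s : ℕ} {H σ : Type} [Fintype σ] (hσ : Fintype.card σ ≤ s)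
    (hn : 48 * s ^ (12 * p) * (Nat.log 2 n + 1) ≤ n) (M : Reader n H σ) (hV : M.Visits p) :
    Invariant M.Accepts ↔
      ∀ G : Fin n → Fin n → Bool, M.Accepts G ↔ M.Accepts (sortedMatrix n (outDegrees G)) :=
  main_iff hσ hn M hV

end Pool.Agent.Results.MP_919415_lc.RowAutomata
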