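import Pool.Agent.Lib.OnePass.NbrMain

namespace Pool.Agent.Results.MP_919415_lc.ShortMessages

open Pool.Agent.OnePass

/-- Undirected graphs on the vertices `0, ..., n - 1`. A referee of unbounded memory and power
talks with the vertices, each vertex knows all its neighbours (so each edge is known to both its
ends). Let `C` be a set of degree multisets, and let `U` be a set of vertices which on the graphs
with degree multiset in `C` are asked at most `v` times. If `s` is at least the number
`|A| ^ (|Q| + ... + |Q| ^ v)` of all ways to answer at most `v` questions and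
`16 (s ^ (s ^ 2 (s ^ 2 + 1)) + s ^ 2 + 2) + 4 ≤ |U|`, then on these graphs the answer is
invariant under isomorphisms if and only if it depends only on the degree multiset. -/
theorem result {n v s : ℕ} {H Q A : Type} [Fintype Q] [Fintype A] (M : Referee n H Q A)
    (U : Finset (Fin n)) (C : Set (Multiset ℕ)) (hv : M.AskedAtMost v U C)
    (hs : Fintype.card A ^ (∑ k ∈ Finset.range v, Fintype.card Q ^ (k + 1)) ≤ s)
    (hn : 16 * (s ^ (s ^ 2 * (s ^ 2 + 1)) + s ^ 2 + 2) + 4 ≤ U.card) :
    (∀ G G' : SimpleGraph (Fin n), degrees G ∈ C → Nonempty (G ≃g G') →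
        (M.Accepts (adj G) ↔ M.Accepts (adj G'))) ↔
      ∀ G G' : SimpleGraph (Fin n), degrees G ∈ C → degrees G = degrees G' →
        (M.Accepts (adj G) ↔ M.Accepts (adj G')) :=
  M.main_short hv hs hn

end Pool.Agent.Results.MP_919415_lc.ShortMessages
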