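import Pool.Agent.Lib.OnePass.Undir

namespace Pool.Agent.Results.MP_919415_lc.UndirectedGraphs

open Pool.Agent.OnePass

/-- Undirected graphs, given by the strictly upper triangular half of the adjacency matrix. A
referee of unbounded memory and power talks with the vertices, the vertex `i` knows its row of the
half matrix, that is its edges to the vertices `j > i`. If vertex `0` is asked first and at most
`v` times, and `2 |A| ^ v |Q| ^ (v - 1) ≤ n`, then the set of accepted graphs is closed under
isomorphism if and only if the answer depends only on the number of edges. -/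
theorem result {n v : ℕ} {H Q A : Type} [Fintype Q] [Fintype A] (M : Referee n H Q A)
    (h0 : (M.vertex M.start).val = 0) (hv : M.FirstAsked v)
    (hn : 2 * (Fintype.card A ^ v * Fintype.card Q ^ (v - 1)) ≤ n) :
    (∀ G G' : SimpleGraph (Fin n), Nonempty (G ≃g G') →
        (M.Accepts (upper G) ↔ M.Accepts (upper G'))) ↔
      ∀ G G' : SimpleGraph (Fin n), G.edgeSet.ncard = G'.edgeSet.ncard →
        (M.Accepts (upper G) ↔ M.Accepts (upper G')) :=
  M.main_undirected h0 hv hn

end Pool.Agent.Results.MP_919415_lc.UndirectedGraphs
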